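import Pool.Agent.W269.BL.Stm

set_option autoImplicit false

open Polynomial

namespace Pool.Agent.W800.BL.CORE

open Pool.Agent.W269.BL

universe u

lemma tri4 (m : ℕ) : ((m + 4) * (m + 4 - 1) / 2) % 2 = (m * (m - 1) / 2) % 2 := by
  rcases m with _ | k
  · rfl
  · have e1 : (k + 1 + 4) * (k + 1 + 4 - 1) = k * k + 9 * k + 20 := by
      have : k + 1 + 4 - 1 = k + 4 := by omega
      rw [this]; ring
    have e2 : (k + 1) * (k + 1 - 1) = k * k + k := by
      have : k + 1 - 1 = k := by omega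
      rw [this]; ring
    rw [e1, e2]
    omega

lemma tri4' (m j : ℕ) : ((m + 4 * j) * (m + 4 * j - 1) / 2) % 2 = (m * (m - 1) / 2) % 2 := by
  induction j with
  | zero => simp
  | succ j ih =>
    have := tri4 (m + 4 * j)
    rw [show m + 4 * (j + 1) = m + 4 * j + 4 by ring, this, ih]

lemma tri_mod {m m' : ℕ} (h : m % 4 = m' % 4) : (m * (m - 1) / 2) % 2 = (m' * (m' - 1) / 2) % 2 := by
  have h1 := tri4' (m % 4) (m / 4)
  have h2 := tri4' (m' % 4) (m' / 4)
  have e1 : m % 4 + 4 * (m / 4) = m := Nat.mod_add_div m 4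
  have e2 : m' % 4 + 4 * (m' / 4) = m' := Nat.mod_add_div m' 4
  rw [e1] at h1
  rw [e2] at h2
  rw [h1, h2, h]

lemma pow_mod_two {R : Type*} [Ring R] {i j : ℕ} (h : i % 2 = j % 2) : (-1 : R) ^ i = (-1 : R) ^ j := by
  rw [neg_one_pow_eq_pow_mod_two (n := i), neg_one_pow_eq_pow_mod_two (n := j), h]

lemma sg_mod (K : Type u) [Field K] [Fintype K] [DecidableEq K] (a : ℕ) {g g' : ℕ} (b : K)
    (h : g % 4 = g' % 4) : sg K a g b = sg K a g' b := by
  unfold sg
  have h1 : (a + g) % 4 = (a + g') % 4 := by omega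
  have h2 : (a + g) % 2 = (a + g') % 2 := by omega
  have h3 := tri_mod h1
  have h4 : ((a + g) * a) % 2 = ((a + g') * a) % 2 := by
    rw [Nat.mul_mod, h2, ← Nat.mul_mod]
  rw [pow_mod_two (R := ℤ) h2, pow_mod_two (R := K) (i := (a + g) * (a + g - 1) / 2 + (a + g) * a)
    (j := (a + g') * (a + g' - 1) / 2 + (a + g') * a) (by omega)]

lemma sg_pm (K : Type u) [Field K] [Fintype K] [DecidableEq K] (a g : ℕ) {b : K} (hb : b ≠ 0) :
    sg K a g b = 1 ∨ sg K a g b = -1 := by
  unfold sg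
  have hx : ((-1 : K) ^ ((a + g) * (a + g - 1) / 2 + (a + g) * a) * b ^ a) ≠ 0 :=
    mul_ne_zero (pow_ne_zero _ (neg_ne_zero.2 one_ne_zero)) (pow_ne_zero _ hb)
  rcases quadraticChar_dichotomy hx with h | h <;> rcases neg_one_pow_eq_or ℤ (a + g) with h' | h' <;>
    rw [h, h'] <;> simp

lemma monic_l {K : Type u} [Field K] {A y : K[X]} (hA : A.Monic) (hy : y.Monic) (hy0 : 0 < y.natDegree) (b : K) :
    (A * y + C b).Monic ∧ 0 < (A * y + C b).natDegree := by
  have h1 : (A * y).Monic := hA.mul hy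
  have h2 : 0 < (A * y).natDegree := by rw [hA.natDegree_mul hy]; omega
  have h3 : (C b).degree < (A * y).degree := by
    refine lt_of_le_of_lt degree_C_le ?_
    exact natDegree_pos_iff_degree_pos.1 h2
  refine ⟨h1.add_of_left h3, ?_⟩
  rw [natDegree_add_eq_left_of_degree_lt h3]
  exact h2

theorem main : StmSIGN.{u} → StmEY.{u} → StmED.{u} → StmEV.{u} → StmEF.{u} → StmCORE.{u} := by
  intro hSIGN hEY hED hEV hEF K _ _ p _ _ hp2 n A b ε hA hb hAb hQ hε c
  classical
  have h2 : (2 : K) ≠ 0 := by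
    intro h
    have h' : ((2 : ℕ) : K) = 0 := by exact_mod_cast h
    rw [CharP.cast_eq_zero_iff K p 2] at h'
    have hp : p.Prime := Fact.out
    exact hp2 ((Nat.prime_dvd_prime_iff_eq hp Nat.prime_two).1 h')
  obtain ⟨y, hy, hy0, hyc, P, hP⟩ := hEY K n A b hA hb hAb c
  have hτ : ∀ j, ε j * sg K (A j).natDegree c (b j) = 1 ∨ ε j * sg K (A j).natDegree c (b j) = -1 := by
    intro j
    rcases hε j with h | h <;> rcases sg_pm K (A j).natDegree c (hb j) with h' | h' <;> rw [h, h'] <;> simp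
  obtain ⟨R, hR, hRs, D₀, hD⟩ := hED K h2 n A b y P (fun j => ε j * sg K (A j).natDegree c (b j)) hA hb hy hy0
    hQ hP hτ
  obtain ⟨G₀, hG₀⟩ := hEV K R hRs D₀
  have hχ := hD _ hG₀
  set M : Fin n → K[X] := fun j => A j ^ 2 * derivative G₀ - C (b j) * derivative (A j) with hM
  have hcop : ∀ j, IsCoprime (A j * y + C (b j)) (M j) := by
    intro j
    have hm := (monic_l (hA j) hy hy0 (b j)).1
    rw [← rs_ne_zero_iff hm]
    intro h0
    have h1 := hχ j
    rw [show rs (A j * y + C (b j)) ((A j) ^ 2 * derivative G₀ - C (b j) * derivative (A j)) = 0 from h0,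
      quadraticChar_zero] at h1
    rcases hτ j with h | h <;> rw [h] at h1 <;> norm_num at h1
  have hM0 : ∀ j, M j ≠ 0 := by
    intro j h0
    have h1 := hcop j
    rw [h0, isCoprime_zero_right] at h1
    have h3 := natDegree_eq_zero_of_isUnit h1
    have h4 := (monic_l (hA j) hy hy0 (b j)).2
    omega
  have hU : (∏ j, M j) ≠ 0 := Finset.prod_ne_zero_iff.2 (fun j _ => hM0 j)
  obtain ⟨S, h₀, hS, hEF'⟩ := hEF K p (∏ j, M j) (y - G₀) hU
  refine ⟨G₀, S, h₀, hS, fun h hh hSh hdeg hmod j => ?_⟩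
  have hp0 : (h ^ p).Monic := hh.pow p
  have hpd : (h ^ p).natDegree = p * h.natDegree := hh.natDegree_pow p
  have hdlt : G₀.degree < (h ^ p).degree := by
    refine degree_lt_degree ?_
    rw [hpd]; exact hdeg
  have hG : (G₀ + h ^ p).Monic := hp0.add_of_right hdlt
  have hGd : (G₀ + h ^ p).natDegree = p * h.natDegree := by
    rw [natDegree_add_eq_right_of_degree_lt hdlt, hpd]
  have hder : derivative (G₀ + h ^ p) = derivative G₀ := by
    rw [derivative_add, derivative_pow]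
    have : (C ((p : ℕ) : K)) = (0 : K[X]) := by
      rw [CharP.cast_eq_zero K p, C_0]
    simp [CharP.cast_eq_zero K p]
  have key := hSIGN K h2 (A j) (G₀ + h ^ p) y (b j) (hA j) hG hy (hb j) (by rw [hGd]; omega) hy0
    (by rw [hGd]; omega) (by rw [hder]; exact hM0 j) (by rw [hder]; exact hcop j)
    (by
      rw [hder]
      intro Q hQi hQM
      have h3 := hEF' h hSh Q hQi (hQM.trans (Finset.dvd_prod_of_mem M (Finset.mem_univ j)))
      have e : G₀ + h ^ p - y = h ^ p - (y - G₀) := by ring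
      rw [e]; exact h3)
  refine ⟨key.1.ne_zero, ?_⟩
  rw [key.2, hder, hGd, sg_mod K (A j).natDegree (b j) hmod]
  have h5 := hχ j
  rw [h5]
  rcases sg_pm K (A j).natDegree c (hb j) with h' | h' <;> rw [h'] <;> ring

end Pool.Agent.W800.BL.CORE
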